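import Pool.Agent.U404.CP.Main

/-! # The proportion of the patterns of consecutive primes in an arbitrary set of shifts -/

set_option autoImplicit false

namespace Pool.Agent.U404.CP

open Finset Filter Topology
open Pool.Agent.U403.Dick (Pz Pz_pos mert log_lin)

lemma mert_quad : Tendsto (fun k : ℕ => Pz (20 * k * (k + 2)) * Real.log k) atTop
    (𝓝 (Real.exp (-Real.eulerMascheroniConstant) / 2)) := by
  have hL : Tendsto (fun k : ℕ => Real.log (k : ℝ)) atTop atTop :=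
    Real.tendsto_log_atTop.comp tendsto_natCast_atTop_atTop
  have hf : Tendsto (fun k : ℕ => 20 * k * (k + 2)) atTop atTop := by
    refine tendsto_atTop_mono (fun k => ?_) tendsto_id
    simp only [id]
    nlinarith
  have h1 := log_lin (f := fun k => 20 * k) (a := 20) (b := 20) (by norm_num) (by
    refine Eventually.of_forall fun k => ⟨?_, ?_⟩ <;> push_cast <;> exact le_rfl)
  have h2 := log_lin (f := fun k => k + 2) (a := 1) (b := 3) (by norm_num) (by
    filter_upwards [eventually_ge_atTop 1] with k hk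
    have : (1 : ℝ) ≤ k := by exact_mod_cast hk
    push_cast
    exact ⟨by linarith, by linarith⟩)
  have h3 := (mert.comp hf).mul ((h1.add h2).inv₀ (by norm_num))
  rw [show Real.exp (-Real.eulerMascheroniConstant) * (1 + 1 : ℝ)⁻¹ =
    Real.exp (-Real.eulerMascheroniConstant) / 2 by norm_num [div_eq_mul_inv]] at h3
  refine h3.congr' ?_
  filter_upwards [eventually_ge_atTop 2, hL.eventually_gt_atTop 0] with k hk hl
  have hk0 : (0 : ℝ) < k := by exact_mod_cast (by omega : 0 < k)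
  have h4 : Real.log ((20 * k * (k + 2) : ℕ) : ℝ) =
      Real.log ((20 * k : ℕ) : ℝ) + Real.log ((k + 2 : ℕ) : ℝ) := by
    rw [← Real.log_mul (by push_cast; positivity) (by push_cast; positivity)]
    congr 1
    push_cast
    ring
  have h5 : Real.log ((20 * k * (k + 2) : ℕ) : ℝ) ≠ 0 := by
    refine (Real.log_pos ?_).ne'
    exact_mod_cast (by nlinarith : 1 < 20 * k * (k + 2))
  simp only [Function.comp]
  rw [← add_div, ← h4, inv_div]
  field_simp

lemma choose_T {k : ℕ} (hk : 1 ≤ k) : ((20 * k * (k + 2)).choose k : ℝ) ≤ (20 * Real.exp 1 * (k + 2)) ^ k := by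
  have hk0 : (0 : ℝ) < k := by exact_mod_cast hk
  have h1 : ((20 * k * (k + 2)).choose k : ℝ) ≤ ((20 * k * (k + 2) : ℕ) : ℝ) ^ k / k.factorial :=
    Nat.choose_le_pow_div k _
  have h2 := Real.pow_div_factorial_le_exp (k : ℝ) hk0.le k
  calc ((20 * k * (k + 2)).choose k : ℝ) ≤ ((20 * k * (k + 2) : ℕ) : ℝ) ^ k / k.factorial := h1
    _ = (20 * ((k : ℝ) + 2)) ^ k * ((k : ℝ) ^ k / k.factorial) := by
        push_cast
        rw [show (20 : ℝ) * k * (k + 2) = (20 * (k + 2)) * k by ring, mul_pow _ (k : ℝ)]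
        ring
    _ ≤ (20 * ((k : ℝ) + 2)) ^ k * Real.exp k := mul_le_mul_of_nonneg_left h2 (by positivity)
    _ = (20 * Real.exp 1 * (k + 2)) ^ k := by
        rw [← Real.exp_one_pow, ← mul_pow]
        congr 1
        ring

lemma choose_low {v k : ℕ} {δ : ℝ} (hδ : 0 < δ) (hδ1 : δ < 1) (hv : (k : ℝ) / δ ≤ v) :
    ((1 - δ) * v) ^ k / k.factorial ≤ (v.choose k : ℝ) := by
  have hkf : (0 : ℝ) < (k.factorial : ℝ) := by exact_mod_cast k.factorial_pos
  have h0 : (k : ℝ) ≤ δ * v := by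
    rw [div_le_iff₀ hδ] at hv
    linarith
  have hv0 : (0 : ℝ) ≤ v := Nat.cast_nonneg _
  have hkv : (k : ℝ) ≤ v := by nlinarith
  have hkv' : k ≤ v := by exact_mod_cast hkv
  have h3 : (v + 1 - k) ^ k ≤ v.descFactorial k := Nat.pow_sub_le_descFactorial _ _
  have h4 : (v.descFactorial k : ℝ) = k.factorial * (v.choose k : ℝ) := by
    exact_mod_cast Nat.descFactorial_eq_factorial_mul_choose v k
  have h5 : ((1 - δ) * v) ^ k ≤ ((v + 1 - k : ℕ) : ℝ) ^ k := by
    apply pow_le_pow_left₀ (mul_nonneg (by linarith) hv0)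
    rw [Nat.cast_sub (by omega)]
    push_cast
    nlinarith
  have h6 : ((v + 1 - k : ℕ) : ℝ) ^ k ≤ (v.descFactorial k : ℝ) := by exact_mod_cast h3
  rw [div_le_iff₀ hkf]
  calc ((1 - δ) * v) ^ k ≤ (v.descFactorial k : ℝ) := h5.trans h6
    _ = _ := by rw [h4]; ring

open Classical in
/-- **lower bound for the proportion of the patterns of `k` consecutive primes** -/
theorem lower {c : ℝ} (hc0 : 0 ≤ c) (hc : c < Real.exp (-Real.eulerMascheroniConstant) / (40 * Real.exp 1)) :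
    ∃ k₀ : ℕ, ∀ k : ℕ, k₀ ≤ k → ∃ n₀ : ℕ, ∀ q a : ℕ, 1 ≤ q → Nat.Coprime a q → ∀ F : Finset ℕ, n₀ ≤ F.card →
      (c / (k * Real.log k)) ^ k * (F.card.choose k : ℝ) ≤ (((F.powersetCard k).filter (Pat q a)).card : ℝ) := by
  obtain ⟨e0, he0⟩ : ∃ e0 : ℝ, e0 = Real.exp (-Real.eulerMascheroniConstant) := ⟨_, rfl⟩
  obtain ⟨e1, he1⟩ : ∃ e1 : ℝ, e1 = Real.exp 1 := ⟨_, rfl⟩
  have he : 0 < e0 := by rw [he0]; exact Real.exp_pos _
  have hee : 0 < e1 := by rw [he1]; exact Real.exp_pos _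
  rw [← he0, ← he1] at hc
  have hcont : Tendsto (fun δ : ℝ => (1 - δ) ^ 2 * (e0 / (40 * e1))) (𝓝[>] 0) (𝓝 (e0 / (40 * e1))) := by
    have h1 : ContinuousAt (fun δ : ℝ => (1 - δ) ^ 2 * (e0 / (40 * e1))) 0 := by fun_prop
    have h2 := h1.tendsto
    simp only [sub_zero, one_pow, one_mul] at h2
    exact h2.mono_left nhdsWithin_le_nhds
  have hev : ∀ᶠ δ in 𝓝[>] (0 : ℝ), c < (1 - δ) ^ 2 * (e0 / (40 * e1)) ∧ 0 < δ ∧ δ < 1 := by
    filter_upwards [hcont.eventually_const_lt hc, self_mem_nhdsWithin,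
      nhdsWithin_le_nhds (eventually_lt_nhds (show (0 : ℝ) < 1 by norm_num))] with δ h1 h2 h3
    exact ⟨h1, h2, h3⟩
  obtain ⟨δ, hδ1, hδ0, hδ3⟩ := hev.exists
  have hratio : Tendsto (fun k : ℕ => (k : ℝ) / ((k : ℝ) + 2)) atTop (𝓝 1) := by
    have h1 := tendsto_natCast_div_add_atTop (𝕜 := ℝ) (2 : ℝ)
    exact h1
  have hlim := (((mert_quad.mul hratio).const_mul ((1 - δ) ^ 2)).div_const (20 * e1))
  rw [← he0, mul_one] at hlim
  have hlt : c < (1 - δ) ^ 2 * (e0 / 2) / (20 * e1) := by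
    refine lt_of_lt_of_le hδ1 (le_of_eq ?_)
    field_simp
    ring
  obtain ⟨k₁, hk₁⟩ := eventually_atTop.1 (hlim.eventually_const_lt hlt)
  obtain ⟨k₂, hk₂⟩ := eventually_atTop.1
    ((tendsto_pow_atTop_nhds_zero_of_lt_one (by linarith : (0 : ℝ) ≤ 1 - δ) (by linarith)).eventually_lt_const
      (show (0 : ℝ) < 1 / 2 by norm_num))
  refine ⟨max (max k₁ k₂) 3, fun k hk => ?_⟩
  have hA := hk₁ k ((le_max_left _ _).trans ((le_max_left _ _).trans hk))
  have hD := hk₂ k ((le_max_right _ _).trans ((le_max_left _ _).trans hk))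
  have hk3 : 3 ≤ k := (le_max_right _ _).trans hk
  have hk0 : (0 : ℝ) < k := by exact_mod_cast (by omega : 0 < k)
  have hlog : 0 < Real.log k := Real.log_pos (by exact_mod_cast (by omega : 1 < k))
  obtain ⟨T, hT⟩ : ∃ T : ℕ, T = 20 * k * (k + 2) := ⟨_, rfl⟩
  have hkT : k ≤ T := by rw [hT]; nlinarith
  have hP := Pz_pos T
  have hTf : (0 : ℝ) < 2 ^ T * (T.factorial : ℝ) := by positivity
  obtain ⟨n₁, hn₁⟩ := few_bad (by omega : 1 ≤ k) hT (δ := 1 / (2 * (2 ^ T * (T.factorial : ℝ)))) (by positivity)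
  obtain ⟨M, hM⟩ : ∃ M : ℕ, M = max n₁ (max (2 * T) ⌈(k : ℝ) / δ⌉₊) := ⟨_, rfl⟩
  refine ⟨⌈(M : ℝ) / Pz T⌉₊, fun q a hq haq F hFn => ?_⟩
  obtain ⟨V, hVF, hVc, hVadm⟩ := select_nat T F
  have hVM : M ≤ V.card := by
    have h1 : (M : ℝ) / Pz T ≤ F.card := (Nat.le_ceil _).trans (by exact_mod_cast hFn)
    rw [div_le_iff₀ hP] at h1
    have : (M : ℝ) ≤ V.card := by linarith
    exact_mod_cast this
  have hV1 : n₁ ≤ V.card := (le_max_left _ _).trans (hM ▸ hVM)
  have hV2 : 2 * T ≤ V.card := (le_max_left _ _).trans ((le_max_right _ _).trans (hM ▸ hVM))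
  have hV3 : (k : ℝ) / δ ≤ V.card := by
    refine (Nat.le_ceil _).trans ?_
    exact_mod_cast (le_max_right _ _).trans ((le_max_right _ _).trans (hM ▸ hVM))
  have hbad := hn₁ q a hq haq V hVadm hV1
  have hvT : (V.card : ℝ) ^ T ≤ 2 ^ T * (T.factorial : ℝ) * (V.card.choose T : ℝ) := by
    have h3 : (V.card + 1 - T) ^ T ≤ V.card.descFactorial T := Nat.pow_sub_le_descFactorial _ _
    have h4 : (V.card.descFactorial T : ℝ) = T.factorial * (V.card.choose T : ℝ) := by
      exact_mod_cast Nat.descFactorial_eq_factorial_mul_choose V.card T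
    have h5 : ((V.card : ℝ) / 2) ^ T ≤ ((V.card + 1 - T : ℕ) : ℝ) ^ T := by
      apply pow_le_pow_left₀ (by positivity)
      rw [Nat.cast_sub (by omega)]
      have : (2 * T : ℝ) ≤ V.card := by exact_mod_cast hV2
      push_cast
      linarith
    have h6 : ((V.card + 1 - T : ℕ) : ℝ) ^ T ≤ (V.card.descFactorial T : ℝ) := by exact_mod_cast h3
    have h7 := h5.trans h6
    rw [h4, div_pow, div_le_iff₀ (by positivity)] at h7
    linarith
  have hbad2 : (((V.powersetCard T).filter (fun s => ∀ I ⊆ s, I.card = k → ¬ Pat q a I)).card : ℝ) ≤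
      1 / 2 * (V.card.choose T : ℝ) := by
    refine hbad.trans ?_
    calc 1 / (2 * (2 ^ T * (T.factorial : ℝ))) * (V.card : ℝ) ^ T
        ≤ 1 / (2 * (2 ^ T * (T.factorial : ℝ))) * (2 ^ T * (T.factorial : ℝ) * (V.card.choose T : ℝ)) :=
          mul_le_mul_of_nonneg_left hvT (by positivity)
      _ = 1 / 2 * (V.card.choose T : ℝ) := by field_simp
  have hcount := count_good V (Pat q a) hkT (by omega) (1 / 2) hbad2
  obtain ⟨g, hg⟩ : ∃ g : ℕ, g = ((V.powersetCard k).filter (Pat q a)).card := ⟨_, rfl⟩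
  rw [← hg] at hcount
  have hmono : (g : ℝ) ≤ (((F.powersetCard k).filter (Pat q a)).card : ℝ) := by
    rw [hg, Nat.cast_le]
    apply card_le_card
    intro I hI
    rw [mem_filter, mem_powersetCard] at hI ⊢
    exact ⟨⟨hI.1.1.trans hVF, hI.1.2⟩, hI.2⟩
  refine le_trans ?_ hmono
  have hCT : (T.choose k : ℝ) ≤ (20 * e1 * (k + 2)) ^ k := by
    rw [hT, he1]
    exact choose_T (by omega)
  have hkf : (0 : ℝ) < (k.factorial : ℝ) := by exact_mod_cast k.factorial_pos
  have hlow := choose_low (k := k) hδ0 hδ3 hV3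
  have hFk : (F.card.choose k : ℝ) ≤ (F.card : ℝ) ^ k / k.factorial := Nat.choose_le_pow_div k _
  have hq1 : c / (k * Real.log k) * (20 * e1 * (k + 2)) ≤ (1 - δ) ^ 2 * Pz T := by
    rw [← hT] at hA
    rw [lt_div_iff₀ (by positivity)] at hA
    have h1 : c * (20 * e1) * ((k : ℝ) + 2) ≤ (1 - δ) ^ 2 * (Pz T * Real.log k) * k := by
      have h2 := mul_le_mul_of_nonneg_right hA.le (show (0 : ℝ) ≤ (k : ℝ) + 2 by positivity)
      calc c * (20 * e1) * ((k : ℝ) + 2) ≤ _ := h2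
        _ = (1 - δ) ^ 2 * (Pz T * Real.log k) * k := by
            have : (k : ℝ) + 2 ≠ 0 := by positivity
            field_simp
    rw [div_mul_eq_mul_div, div_le_iff₀ (by positivity)]
    calc c * (20 * e1 * (k + 2)) = c * (20 * e1) * ((k : ℝ) + 2) := by ring
      _ ≤ _ := h1
      _ = _ := by ring
  have hcl : 0 ≤ c / (k * Real.log k) := div_nonneg hc0 (by positivity)
  have hpos : (0 : ℝ) < (20 * e1 * ((k : ℝ) + 2)) ^ k := by positivity
  refine le_of_mul_le_mul_right ?_ hpos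
  have hδ' : (0 : ℝ) ≤ 1 - δ := by linarith
  calc (c / (k * Real.log k)) ^ k * (F.card.choose k : ℝ) * (20 * e1 * ((k : ℝ) + 2)) ^ k
      = (c / (k * Real.log k) * (20 * e1 * (k + 2))) ^ k * (F.card.choose k : ℝ) := by rw [mul_pow _ (20 * e1 * ((k : ℝ) + 2))]; ring
    _ ≤ ((1 - δ) ^ 2 * Pz T) ^ k * ((F.card : ℝ) ^ k / k.factorial) := by
        apply mul_le_mul _ hFk (Nat.cast_nonneg _) (by positivity)
        exact pow_le_pow_left₀ (by positivity) hq1 k
    _ = (1 - δ) ^ k * (((1 - δ) * (Pz T * F.card)) ^ k / k.factorial) := by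
        rw [mul_pow, mul_pow, mul_pow, ← pow_mul, mul_comm 2 k, pow_mul]
        ring
    _ ≤ 1 / 2 * (((1 - δ) * V.card) ^ k / k.factorial) := by
        apply mul_le_mul hD.le _ (by positivity) (by norm_num)
        apply div_le_div_of_nonneg_right _ hkf.le
        apply pow_le_pow_left₀ (by positivity)
        exact mul_le_mul_of_nonneg_left hVc hδ'
    _ ≤ 1 / 2 * (V.card.choose k : ℝ) := mul_le_mul_of_nonneg_left hlow (by norm_num)
    _ ≤ (T.choose k : ℝ) * g := by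
        refine le_trans (le_of_eq ?_) hcount
        ring
    _ ≤ (20 * e1 * ((k : ℝ) + 2)) ^ k * g := mul_le_mul_of_nonneg_right hCT (Nat.cast_nonneg _)
    _ = _ := by ring

end Pool.Agent.U404.CP
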