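import Mathlib
import Pool.Agent.U403.Dick.Sel
import Pool.Agent.U403.Dick.Mer

/-! # Sets of shifts: a large subset without local obstructions, and boxes of classes -/

set_option autoImplicit false

namespace Pool.Agent.U404.CP

open Finset

/-- a large subset without obstructions at the primes up to `z` -/
lemma select_nat (z : ℕ) (F : Finset ℕ) :
    ∃ V ⊆ F, Pool.Agent.U403.Dick.Pz z * F.card ≤ V.card ∧
      ∀ p : ℕ, p ≤ z → p.Prime → ∃ r : ℤ, ∀ b ∈ V, ¬ (p : ℤ) ∣ r + (b : ℤ) := by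
  classical
  obtain ⟨φ, hφ⟩ : ∃ φ : ℕ → ℤ × ℤ, φ = fun b : ℕ => ((1 : ℤ), (b : ℤ)) := ⟨_, rfl⟩
  have hinj : Function.Injective φ := by
    intro a b hab
    rw [hφ] at hab
    have := (Prod.mk.inj hab).2
    exact_mod_cast this
  obtain ⟨V', hV1, hV2, hV3⟩ := Pool.Agent.U403.Dick.select z (F.image φ) (by
    intro f hf
    rw [mem_image] at hf
    obtain ⟨b, -, rfl⟩ := hf
    rw [hφ]
    exact isCoprime_one_left)
  obtain ⟨V, hVF, rfl⟩ := subset_image_iff.1 hV1
  refine ⟨V, hVF, ?_, fun p hp hpp => ?_⟩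
  · rw [card_image_of_injective _ hinj, card_image_of_injective _ hinj] at hV2
    exact hV2
  · obtain ⟨r, hr⟩ := hV3 p hp hpp
    refine ⟨r, fun b hb h => hr (φ b) (mem_image_of_mem _ hb) ?_⟩
    rw [hφ]
    simpa using h

/-- a box of classes: thinning of large parts -/
lemma box_nat {T K : ℕ} (hK : 1 ≤ K) (V : Finset ℕ)
    (hadm : ∀ p : ℕ, p ≤ T → p.Prime → ∃ r : ℤ, ∀ b ∈ V, ¬ (p : ℤ) ∣ r + (b : ℤ))
    (A : Fin T → Finset V) (hA : ∀ g, (A g).card = (T * K).factorial * K) :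
    ∃ H : Fin T → Fin K → V, (∀ g i, H g i ∈ A g) ∧ (∀ g, Function.Injective (H g)) ∧
      ∀ p : ℕ, p.Prime → p ≤ T * K → ∃ r : ℕ, ∀ g i, ¬ p ∣ r + (H g i : ℕ) := by
  classical
  obtain ⟨Q, hQ⟩ : ∃ Q : ℕ, Q = (T * K).factorial := ⟨_, rfl⟩
  have hQ0 : 0 < Q := by rw [hQ]; exact Nat.factorial_pos _
  have hne : NeZero Q := ⟨hQ0.ne'⟩
  have h : ∀ g, ∃ e : Fin K → V, Function.Injective e ∧ (∀ i, e i ∈ A g) ∧
      ∃ ρ : ZMod Q, ∀ i, (((e i : ℕ)) : ZMod Q) = ρ := by
    intro g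
    obtain ⟨ρ, -, hρ⟩ := exists_le_card_fiber_of_mul_le_card_of_maps_to (s := A g)
      (t := (univ : Finset (ZMod Q)))
      (f := fun v : V => ((v : ℕ) : ZMod Q)) (n := K)
      (fun _ _ => mem_univ _) univ_nonempty (by
        rw [card_univ, ZMod.card, hA g, ← hQ])
    obtain ⟨s, hs, hsc⟩ := exists_subset_card_eq hρ
    refine ⟨fun i => ((s.equivFinOfCardEq hsc).symm i : V), fun i j hij => ?_, fun i => ?_, ρ, fun i => ?_⟩
    · exact (s.equivFinOfCardEq hsc).symm.injective (Subtype.ext hij)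
    · exact (mem_filter.1 (hs ((s.equivFinOfCardEq hsc).symm i).2)).1
    · exact (mem_filter.1 (hs ((s.equivFinOfCardEq hsc).symm i).2)).2
  choose e he1 he2 ρ hρ using h
  refine ⟨e, he2, he1, fun p hp hle => ?_⟩
  have hfp : Fact p.Prime := ⟨hp⟩
  by_cases hpT : p ≤ T
  · obtain ⟨r, hr⟩ := hadm p hpT hp
    refine ⟨(r : ZMod p).val, fun g i hd => hr _ (e g i).2 ?_⟩
    rw [← ZMod.natCast_eq_zero_iff] at hd
    rw [← ZMod.intCast_zmod_eq_zero_iff_dvd]
    push_cast at hd ⊢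
    rw [ZMod.natCast_zmod_val] at hd
    exact hd
  · push Not at hpT
    have hpQ : p ∣ Q := by rw [hQ]; exact (hp.dvd_factorial).2 hle
    have key : ∀ g i, ((e g i : ℕ) : ZMod p) = ((e g ⟨0, by omega⟩ : ℕ) : ZMod p) := by
      intro g i
      have h1 := (hρ g i).trans (hρ g ⟨0, by omega⟩).symm
      rw [ZMod.natCast_eq_natCast_iff] at h1 ⊢
      exact h1.of_dvd hpQ
    have hex : ∃ x : ZMod p, x ∉ (univ : Finset (Fin T)).image (fun g => -((e g ⟨0, by omega⟩ : ℕ) : ZMod p)) := by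
      by_contra hcon
      push Not at hcon
      have h2 : (univ : Finset (ZMod p)).card ≤
          ((univ : Finset (Fin T)).image (fun g => -((e g ⟨0, by omega⟩ : ℕ) : ZMod p))).card :=
        card_le_card fun x _ => hcon x
      have h3 := h2.trans card_image_le
      rw [card_univ, card_univ, ZMod.card, Fintype.card_fin] at h3
      omega
    obtain ⟨x, hx⟩ := hex
    refine ⟨x.val, fun g i hd => hx ?_⟩
    rw [← ZMod.natCast_eq_zero_iff] at hd
    push_cast at hd
    rw [ZMod.natCast_zmod_val, key g i] at hd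
    rw [mem_image]
    refine ⟨g, mem_univ _, ?_⟩
    linear_combination -hd

/-- more residues than shifts -/
lemma large_prime {M p : ℕ} (hp : p.Prime) (hM : M < p) (h : ℕ → ℕ) : ∃ r : ℕ, ∀ x < M, ¬ p ∣ r + h x := by
  classical
  have hfp : Fact p.Prime := ⟨hp⟩
  have hex : ∃ x : ZMod p, x ∉ (range M).image (fun i => -((h i : ℕ) : ZMod p)) := by
    by_contra hcon
    push Not at hcon
    have h2 : (univ : Finset (ZMod p)).card ≤ ((range M).image (fun i => -((h i : ℕ) : ZMod p))).card :=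
      card_le_card fun x _ => hcon x
    have h3 := h2.trans card_image_le
    rw [card_univ, card_range, ZMod.card] at h3
    omega
  obtain ⟨x, hx⟩ := hex
  refine ⟨x.val, fun i hi hd => hx ?_⟩
  rw [← ZMod.natCast_eq_zero_iff] at hd
  push_cast at hd
  rw [ZMod.natCast_zmod_val] at hd
  rw [mem_image]
  exact ⟨i, mem_range.2 hi, by linear_combination -hd⟩

end Pool.Agent.U404.CP
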