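import Mathlib

/-! # Counting lemmas for the proportion of the patterns of consecutive primes -/

set_option autoImplicit false

namespace Pool.Agent.U404.CP

open Finset

/-- a run: if there are many groups which are hit once in comparison with the groups which are hit several times,
there is an interval of groups without a group of the second kind which contains exactly `k` groups of the first
kind -/
lemma run {T k : ℕ} (hk : 1 ≤ k) (f : ℕ → ℕ)
    (h : k * (((range T).filter (fun g => 2 ≤ f g)).card + 1) ≤ ((range T).filter (fun g => f g = 1)).card) :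
    ∃ g₁ g₂ : ℕ, g₁ ≤ g₂ ∧ g₂ < T ∧ (∀ g ∈ Icc g₁ g₂, f g ≤ 1) ∧ ∑ g ∈ Icc g₁ g₂, f g = k := by
  classical
  obtain ⟨S1, hS1⟩ : ∃ S1 : Finset ℕ, S1 = (range T).filter (fun g => f g = 1) := ⟨_, rfl⟩
  obtain ⟨S2, hS2⟩ : ∃ S2 : Finset ℕ, S2 = (range T).filter (fun g => 2 ≤ f g) := ⟨_, rfl⟩
  rw [← hS1, ← hS2] at h
  obtain ⟨φ, hφ⟩ : ∃ φ : ℕ → ℕ, φ = fun g => (S2.filter (fun x => x < g)).card := ⟨_, rfl⟩
  obtain ⟨j, -, hj⟩ := exists_le_card_fiber_of_mul_le_card_of_maps_to (s := S1) (t := range (S2.card + 1))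
    (f := φ) (n := k) (fun g _ => by
      rw [mem_range, hφ]
      exact Nat.lt_succ_of_le (card_le_card (filter_subset _ _))) (by simp) (by
      rw [card_range, mul_comm]
      exact h)
  obtain ⟨Φ, hΦ⟩ : ∃ Φ : Finset ℕ, Φ = S1.filter (fun g => φ g = j) := ⟨_, rfl⟩
  rw [← hΦ] at hj
  have hΦne : Φ.Nonempty := card_pos.1 (by omega)
  obtain ⟨g₁, hg₁⟩ : ∃ g₁ : ℕ, g₁ = Φ.min' hΦne := ⟨_, rfl⟩
  obtain ⟨g₃, hg₃⟩ : ∃ g₃ : ℕ, g₃ = Φ.max' hΦne := ⟨_, rfl⟩
  have hm1 : g₁ ∈ Φ := hg₁ ▸ min'_mem _ _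
  have hm3 : g₃ ∈ Φ := hg₃ ▸ max'_mem _ _
  have h13 : g₁ ≤ g₃ := by rw [hg₁]; exact min'_le _ _ hm3
  have hm1' := hm1
  have hm3' := hm3
  rw [hΦ, mem_filter, hS1, mem_filter, mem_range] at hm1' hm3'
  have hno : ∀ g ∈ Icc g₁ g₃, f g ≤ 1 := by
    intro g hg
    rw [mem_Icc] at hg
    by_contra hcon
    push Not at hcon
    have hgS2 : g ∈ S2 := by
      rw [hS2, mem_filter, mem_range]
      exact ⟨by omega, hcon⟩
    have hne : g ≠ g₃ := by
      rintro rfl
      omega
    have hlt : (S2.filter (fun x => x < g₁)).card < (S2.filter (fun x => x < g₃)).card := by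
      apply card_lt_card
      rw [ssubset_iff_of_subset]
      · refine ⟨g, ?_, ?_⟩
        · rw [mem_filter]; exact ⟨hgS2, by omega⟩
        · rw [mem_filter]; rintro ⟨-, h2⟩; omega
      · intro x hx
        rw [mem_filter] at hx ⊢
        exact ⟨hx.1, by omega⟩
    have e1 := hm1'.2
    have e3 := hm3'.2
    rw [hφ] at e1 e3
    simp only at e1 e3
    omega
  have hsum : k ≤ ∑ g ∈ Icc g₁ g₃, f g := by
    calc k ≤ Φ.card := hj
      _ = ∑ g ∈ Φ, 1 := by simp
      _ ≤ ∑ g ∈ Φ, f g := by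
          apply sum_le_sum
          intro g hg
          rw [hΦ, mem_filter, hS1, mem_filter] at hg
          omega
      _ ≤ _ := by
          apply sum_le_sum_of_subset
          intro g hg
          rw [mem_Icc]
          exact ⟨by rw [hg₁]; exact min'_le _ _ hg, by rw [hg₃]; exact le_max' _ _ hg⟩
  have hex : ∃ g, g₁ ≤ g ∧ k ≤ ∑ x ∈ Icc g₁ g, f x := ⟨g₃, h13, hsum⟩
  have hfind := Nat.find_spec hex
  have hmin := fun m (hm : m < Nat.find hex) => Nat.find_min hex hm
  have hle : Nat.find hex ≤ g₃ := Nat.find_min' hex ⟨h13, hsum⟩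
  obtain ⟨g₂, hg₂⟩ : ∃ g₂ : ℕ, g₂ = Nat.find hex := ⟨_, rfl⟩
  rw [← hg₂] at hfind hmin hle
  refine ⟨g₁, g₂, hfind.1, by omega, fun g hg => hno g ?_, le_antisymm ?_ hfind.2⟩
  · rw [mem_Icc] at hg ⊢
    omega
  · rcases Nat.eq_or_lt_of_le hfind.1 with e | e
    · rw [← e, Icc_self, sum_singleton]
      have := hno g₁ (by rw [mem_Icc]; omega)
      omega
    · have h1 := hmin (g₂ - 1) (by omega)
      push Not at h1
      have h2 := h1 (by omega)
      have h3 : Icc g₁ g₂ = insert g₂ (Icc g₁ (g₂ - 1)) := by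
        ext x
        simp only [mem_insert, mem_Icc]
        omega
      rw [h3, sum_insert (by rw [mem_Icc]; omega)]
      have := hno g₂ (by rw [mem_Icc]; omega)
      omega

open Classical in
/-- the sets of `T` elements which contain a given set of `k` elements -/
lemma supersets (V I : Finset ℕ) (T k : ℕ) (hIV : I ⊆ V) (hI : I.card = k) :
    ((V.powersetCard T).filter (fun s => I ⊆ s)).card ≤ (V.card - k).choose (T - k) := by
  have h1 : (V \ I).card = V.card - k := by rw [card_sdiff_of_subset hIV, hI]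
  rw [← h1, ← card_powersetCard]
  apply card_le_card_of_injOn (fun s => s \ I)
  · intro s hs
    rw [mem_coe, mem_filter, mem_powersetCard] at hs
    rw [mem_coe, mem_powersetCard]
    refine ⟨sdiff_subset_sdiff hs.1.1 (Subset.refl _), ?_⟩
    rw [card_sdiff_of_subset hs.2, hI, hs.1.2]
  · intro s hs t ht hst
    rw [mem_coe, mem_filter] at hs ht
    simp only at hst
    rw [← sdiff_union_of_subset hs.2, ← sdiff_union_of_subset ht.2, hst]

open Classical in
/-- double counting: if few sets of `T` elements contain no good set of `k` elements, then the proportion of the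
good sets of `k` elements is at least `1 / (T choose k)` -/
lemma count_good (V : Finset ℕ) (Good : Finset ℕ → Prop) {T k : ℕ} (hkT : k ≤ T) (hTV : T ≤ V.card) (x : ℝ)
    (hx : (((V.powersetCard T).filter (fun s => ∀ I ⊆ s, I.card = k → ¬ Good I)).card : ℝ) ≤
      x * (V.card.choose T : ℝ)) :
    (1 - x) * (V.card.choose k : ℝ) ≤ (T.choose k : ℝ) * (((V.powersetCard k).filter Good).card : ℝ) := by
  obtain ⟨G, hG⟩ : ∃ G : Finset (Finset ℕ), G = (V.powersetCard k).filter Good := ⟨_, rfl⟩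
  rw [← hG]
  have h1 : ((V.powersetCard T).filter (fun s => ¬ ∀ I ⊆ s, I.card = k → ¬ Good I)).card ≤
      G.card * (V.card - k).choose (T - k) := by
    have hsub : (V.powersetCard T).filter (fun s => ¬ ∀ I ⊆ s, I.card = k → ¬ Good I) ⊆
        G.biUnion (fun I => (V.powersetCard T).filter (fun s => I ⊆ s)) := by
      intro s hs
      rw [mem_filter] at hs
      obtain ⟨hs1, hs2⟩ := hs
      push Not at hs2
      obtain ⟨I, hI1, hI2, hI3⟩ := hs2
      rw [mem_biUnion]
      refine ⟨I, ?_, ?_⟩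
      · rw [hG, mem_filter, mem_powersetCard]
        exact ⟨⟨hI1.trans (mem_powersetCard.1 hs1).1, hI2⟩, hI3⟩
      · rw [mem_filter]
        exact ⟨hs1, hI1⟩
    refine (card_le_card hsub).trans (card_biUnion_le.trans ?_)
    calc ∑ I ∈ G, ((V.powersetCard T).filter (fun s => I ⊆ s)).card
        ≤ ∑ I ∈ G, (V.card - k).choose (T - k) := by
          apply sum_le_sum
          intro I hI
          rw [hG, mem_filter, mem_powersetCard] at hI
          exact supersets V I T k hI.1.1 hI.1.2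
      _ = _ := by rw [sum_const, smul_eq_mul]
  have h2 := card_filter_add_card_filter_not (s := V.powersetCard T) (fun s => ∀ I ⊆ s, I.card = k → ¬ Good I)
  rw [card_powersetCard] at h2
  have h3 : (V.card.choose T : ℝ) ≤ x * (V.card.choose T : ℝ) + G.card * ((V.card - k).choose (T - k) : ℝ) := by
    have h4 : (V.card.choose T : ℝ) =
        (((V.powersetCard T).filter (fun s => ∀ I ⊆ s, I.card = k → ¬ Good I)).card : ℝ) +
        (((V.powersetCard T).filter (fun s => ¬ ∀ I ⊆ s, I.card = k → ¬ Good I)).card : ℝ) := by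
      exact_mod_cast h2.symm
    rw [h4] at hx ⊢
    have h5 : (((V.powersetCard T).filter (fun s => ¬ ∀ I ⊆ s, I.card = k → ¬ Good I)).card : ℝ) ≤
      G.card * ((V.card - k).choose (T - k) : ℝ) := by exact_mod_cast h1
    linarith
  have h6 : (V.card.choose T : ℝ) * (T.choose k : ℝ) =
      (V.card.choose k : ℝ) * ((V.card - k).choose (T - k) : ℝ) := by
    exact_mod_cast Nat.choose_mul (n := V.card) (k := T) (s := k) hkT
  have h7 : (0 : ℝ) < ((V.card - k).choose (T - k) : ℝ) := by
    exact_mod_cast Nat.choose_pos (by omega)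
  have h8 : (0 : ℝ) ≤ (T.choose k : ℝ) := Nat.cast_nonneg _
  refine le_of_mul_le_mul_right ?_ h7
  calc (1 - x) * (V.card.choose k : ℝ) * ((V.card - k).choose (T - k) : ℝ)
      = (1 - x) * ((V.card.choose T : ℝ) * (T.choose k : ℝ)) := by rw [h6]; ring
    _ = ((1 - x) * (V.card.choose T : ℝ)) * (T.choose k : ℝ) := by ring
    _ ≤ (G.card * ((V.card - k).choose (T - k) : ℝ)) * (T.choose k : ℝ) :=
        mul_le_mul_of_nonneg_right (by linarith) h8
    _ = _ := by ring

end Pool.Agent.U404.CP
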