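import Pool.Agent.U404.CP.Comb
import Pool.Agent.U404.CP.Box
import Pool.Agent.TH779.Ord.Exact
import Pool.Agent.H461R2.PD.Comb

/-! # Almost all sets of `20 k (k + 2)` shifts contain a pattern of `k` consecutive primes -/

set_option autoImplicit false

namespace Pool.Agent.U404.CP

open Finset

/-- for infinitely many `n` in the class of `a` modulo `q` the primes between `n + q * min I` and `n + q * max I`
are exactly the numbers `n + q * h`, `h ∈ I` -/
def Pat (q a : ℕ) (I : Finset ℕ) : Prop :=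
  {n : ℕ | n ≡ a [MOD q] ∧ ∀ y : ℕ, (∃ h ∈ I, q * h ≤ y) → (∃ h ∈ I, y ≤ q * h) →
    ((n + y).Prime ↔ ∃ h ∈ I, y = q * h)}.Infinite

lemma fn_bound {lam : ℝ} (hl : 1 ≤ lam) (m : ℕ) : Pool.Agent.TH779.Ord.fn lam m ≤
    (if m = 1 then 1 else 0) - (2 * lam - 2) * (if 2 ≤ m then 1 else 0) := by
  unfold Pool.Agent.TH779.Ord.fn
  rcases Nat.lt_or_ge m 2 with h | h
  · interval_cases m
    · simp
    · simp
  · have h1 : (2 : ℝ) ≤ m := by exact_mod_cast h
    rw [if_neg (by omega), if_pos h]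
    nlinarith [mul_nonneg (sub_nonneg.2 h1) (sub_nonneg.2 h1), mul_nonneg (sub_nonneg.2 hl) (sub_nonneg.2 h1),
      mul_nonneg (sub_nonneg.2 hl) (mul_nonneg (sub_nonneg.2 h1) (sub_nonneg.2 h1))]

/-- the groups which are hit once outnumber the groups which are hit several times -/
lemma singles {T k : ℕ} (hk : 1 ≤ k) (hT : T = 20 * k * (k + 2)) (f : ℕ → ℕ)
    (h : (T : ℝ) / (40 * ((k : ℝ) / 2 + 1)) ≤ ∑ g ∈ range T, Pool.Agent.TH779.Ord.fn ((k : ℝ) / 2 + 1) (f g)) :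
    k * (((range T).filter (fun g => 2 ≤ f g)).card + 1) ≤ ((range T).filter (fun g => f g = 1)).card := by
  have hk0 : (0 : ℝ) < k := by exact_mod_cast hk
  have h1 : (T : ℝ) / (40 * ((k : ℝ) / 2 + 1)) = k := by
    rw [hT]
    push_cast
    field_simp
    ring
  rw [h1] at h
  have h2 : ∑ g ∈ range T, Pool.Agent.TH779.Ord.fn ((k : ℝ) / 2 + 1) (f g) ≤
      (((range T).filter (fun g => f g = 1)).card : ℝ) - k * (((range T).filter (fun g => 2 ≤ f g)).card : ℝ) := by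
    refine (sum_le_sum fun g _ => fn_bound (lam := (k : ℝ) / 2 + 1) (by linarith) (f g)).trans (le_of_eq ?_)
    rw [sum_sub_distrib, ← mul_sum, sum_boole, sum_boole]
    ring
  have h3 : (k : ℝ) * ((((range T).filter (fun g => 2 ≤ f g)).card : ℝ) + 1) ≤
      (((range T).filter (fun g => f g = 1)).card : ℝ) := by linarith
  exact_mod_cast h3

/-- a transversal pattern of `k` consecutive primes in an ordered box of shifts -/
lemma transversal {T K k : ℕ} (hk : 1 ≤ k) (hT : T = 20 * k * (k + 2)) {q a : ℕ} (hq : 1 ≤ q)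
    (h : ℕ → ℕ)
    (hord : ∀ x < T * K, ∀ y < T * K, x / K < y / K → h x < h y) (J : Finset ℕ) (hJ : ∀ x ∈ J, x < T * K)
    (hfn : (T : ℝ) / (40 * ((k : ℝ) / 2 + 1)) ≤
        ∑ g ∈ range T, Pool.Agent.TH779.Ord.fn ((k : ℝ) / 2 + 1) (J.filter (fun x => x / K = g)).card)
    (hinf : {n : ℕ | n ≡ a [MOD q] ∧ (∀ x ∈ J, (n + q * h x).Prime) ∧
          ∀ y : ℕ, (∃ x < T * K, y ≤ q * h x) → (n + y).Prime → ∃ x ∈ J, y = q * h x}.Infinite) :
    ∃ I : Finset ℕ, (∀ x ∈ I, x < T * K) ∧ (∀ x ∈ I, ∀ y ∈ I, x / K = y / K → x = y) ∧ I.card = k ∧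
      Pat q a (I.image h) := by
  classical
  obtain ⟨g₁, g₂, h12, h2T, hle, hsum⟩ := run hk (fun g => (J.filter (fun x => x / K = g)).card)
    (singles hk hT _ hfn)
  obtain ⟨I, hI⟩ : ∃ I : Finset ℕ, I = J.filter (fun x => g₁ ≤ x / K ∧ x / K ≤ g₂) := ⟨_, rfl⟩
  have hIJ : I ⊆ J := by rw [hI]; exact filter_subset _ _
  have hcard : I.card = k := by
    rw [← hsum, card_eq_sum_card_fiberwise (f := fun x => x / K) (t := Icc g₁ g₂)]
    · apply sum_congr rfl
      intro g hg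
      congr 1
      rw [mem_Icc] at hg
      ext x
      rw [hI, mem_filter, mem_filter, mem_filter]
      constructor
      · rintro ⟨⟨h1, -⟩, h3⟩; exact ⟨h1, h3⟩
      · rintro ⟨h1, h3⟩; exact ⟨⟨h1, by omega⟩, h3⟩
    · intro x hx
      rw [mem_coe, hI, mem_filter] at hx
      rw [mem_coe, mem_Icc]
      exact hx.2
  have hone : ∀ x ∈ I, ∀ y ∈ I, x / K = y / K → x = y := by
    intro x hx y hy hxy
    have h1 := hle (x / K) (by
      rw [hI, mem_filter] at hx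
      rw [mem_Icc]
      exact hx.2)
    rw [card_le_one] at h1
    exact h1 x (by rw [mem_filter]; exact ⟨hIJ hx, rfl⟩) y (by rw [mem_filter]; exact ⟨hIJ hy, hxy.symm⟩)
  refine ⟨I, fun x hx => hJ x (hIJ hx), hone, hcard, ?_⟩
  unfold Pat
  apply hinf.mono
  rintro n ⟨hn1, hn2, hn3⟩
  refine ⟨hn1, fun y hy1 hy2 => ?_⟩
  obtain ⟨b1, hb1, hb1y⟩ := hy1
  obtain ⟨b2, hb2, hb2y⟩ := hy2
  rw [mem_image] at hb1 hb2
  obtain ⟨x1, hx1, rfl⟩ := hb1
  obtain ⟨x2, hx2, rfl⟩ := hb2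
  constructor
  · intro hp
    obtain ⟨x, hx, hyx⟩ := hn3 y ⟨x2, hJ x2 (hIJ hx2), hb2y⟩ hp
    refine ⟨h x, mem_image_of_mem _ ?_, hyx⟩
    have hx1' := hx1
    have hx2' := hx2
    rw [hI, mem_filter] at hx1' hx2'
    rw [hI, mem_filter]
    have e1 : h x1 ≤ h x := Nat.le_of_mul_le_mul_left (by omega) hq
    have e2 : h x ≤ h x2 := Nat.le_of_mul_le_mul_left (by omega) hq
    refine ⟨hx, ?_, ?_⟩
    · by_contra hcon
      push Not at hcon
      have := hord x (hJ x hx) x1 (hJ x1 hx1'.1) (by omega)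
      omega
    · by_contra hcon
      push Not at hcon
      have := hord x2 (hJ x2 hx2'.1) x (hJ x hx) (by omega)
      omega
  · rintro ⟨b, hb, rfl⟩
    rw [mem_image] at hb
    obtain ⟨x, hx, rfl⟩ := hb
    exact hn2 x (hIJ hx)

open Classical in
/-- few sets of `T` shifts contain no pattern of `k` consecutive primes -/
theorem few_bad {T k : ℕ} (hk : 1 ≤ k) (hT : T = 20 * k * (k + 2)) {δ : ℝ} (hδ : 0 < δ) :
    ∃ n₁ : ℕ, ∀ q a : ℕ, 1 ≤ q → Nat.Coprime a q → ∀ V : Finset ℕ,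
      (∀ p : ℕ, p ≤ T → p.Prime → ∃ r : ℤ, ∀ b ∈ V, ¬ (p : ℤ) ∣ r + (b : ℤ)) → n₁ ≤ V.card →
      (((V.powersetCard T).filter (fun s => ∀ I ⊆ s, I.card = k → ¬ Pat q a I)).card : ℝ) ≤
        δ * (V.card : ℝ) ^ T := by
  have hT1 : 1 ≤ T := by
    rw [hT]
    exact Nat.mul_pos (Nat.mul_pos (by norm_num) hk) (by omega)
  obtain ⟨K, hK, hex⟩ := Pool.Agent.TH779.Ord.exact_few T ((k : ℝ) / 2 + 1) hT1 (by
    have : (0 : ℝ) ≤ k := Nat.cast_nonneg _
    linarith)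
  have hQ1 : 1 ≤ (T * K).factorial * K := Nat.mul_pos (Nat.factorial_pos _) (by omega)
  obtain ⟨n₀, hn₀⟩ := Pool.Agent.H461R2.PD.blowup ((T * K).factorial * K) hQ1 T δ hδ
  refine ⟨n₀, fun q a hq haq V hadm hn => ?_⟩
  by_contra hcon
  push Not at hcon
  obtain ⟨B, hB⟩ : ∃ B : Finset (Finset ℕ), B =
    (V.powersetCard T).filter (fun s => ∀ I ⊆ s, I.card = k → ¬ Pat q a I) := ⟨_, rfl⟩
  rw [← hB] at hcon
  obtain ⟨E, hE⟩ : ∃ E : Finset (Fin T → V), ∀ u, u ∈ E ↔ (StrictMono u ∧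
      ∀ I : Finset ℕ, I ⊆ univ.image (fun g : Fin T => (u g : ℕ)) → I.card = k → ¬ Pat q a I) :=
    ⟨(Set.toFinite {u : Fin T → V | StrictMono u ∧
      ∀ I : Finset ℕ, I ⊆ univ.image (fun g : Fin T => (u g : ℕ)) → I.card = k → ¬ Pat q a I}).toFinset,
      fun u => Set.Finite.mem_toFinset _⟩
  have hBE : B.card ≤ E.card := by
    refine (card_le_card (t := E.image (fun u : Fin T → V => univ.image (fun g : Fin T => (u g : ℕ)))) ?_).trans card_image_le
    intro s hs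
    rw [hB, mem_filter, mem_powersetCard] at hs
    obtain ⟨⟨hs1, hs2⟩, hs3⟩ := hs
    rw [mem_image]
    have himg : (univ : Finset (Fin T)).image (fun g => s.orderEmbOfFin hs2 g) = s := by
      apply coe_injective
      rw [coe_image, coe_univ, Set.image_univ]
      exact range_orderEmbOfFin s hs2
    refine ⟨fun g => ⟨s.orderEmbOfFin hs2 g, hs1 (orderEmbOfFin_mem s hs2 g)⟩, ?_, himg⟩
    rw [hE]
    refine ⟨fun g g' hgg => ?_, ?_⟩
    · exact (s.orderEmbOfFin hs2).strictMono hgg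
    · intro I hI
      exact hs3 I (by rw [himg] at hI; exact hI)
  have hW : Fintype.card V = V.card := Fintype.card_coe V
  obtain ⟨A, hA1, hA2⟩ := hn₀ V (by rw [hW]; exact hn) E (by
    rw [hW]
    have : (B.card : ℝ) ≤ E.card := by exact_mod_cast hBE
    linarith)
  obtain ⟨H, hH1, hH2, hH3⟩ := box_nat (by omega : 1 ≤ K) V hadm A hA1
  have hK0 : 0 < K := by omega
  have hord' : ∀ g g' : Fin T, g < g' → ∀ i i' : Fin K, (H g i : ℕ) < H g' i' := by
    intro g g' hgg i i'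
    have hu := hA2 (fun j => if j = g then H g i else if j = g' then H g' i' else H j ⟨0, hK0⟩) (fun j => by
      split_ifs with h1 h2
      · rw [h1]; exact hH1 g i
      · rw [h2]; exact hH1 g' i'
      · exact hH1 j _)
    rw [hE] at hu
    have h1 := hu.1 hgg
    simp only [if_true, if_neg hgg.ne'] at h1
    exact h1
  have hdiv : ∀ x, x < T * K → x / K < T := fun x hx => Nat.div_lt_of_lt_mul (by rw [mul_comm]; exact hx)
  obtain ⟨h, hh⟩ : ∃ h : ℕ → ℕ, ∀ x (hx : x < T * K), h x =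
      (H ⟨x / K, hdiv x hx⟩ ⟨x % K, Nat.mod_lt _ hK0⟩ : ℕ) := by
    refine ⟨fun x => if hx : x < T * K then (H ⟨x / K, hdiv x hx⟩ ⟨x % K, Nat.mod_lt _ hK0⟩ : ℕ) else 0,
      fun x hx => ?_⟩
    simp only [dif_pos hx]
  have hord : ∀ x < T * K, ∀ y < T * K, x / K < y / K → h x < h y := by
    intro x hx y hy hxy
    rw [hh x hx, hh y hy]
    exact hord' _ _ (by rw [Fin.lt_def]; exact hxy) _ _
  have hinj : ∀ x < T * K, ∀ y < T * K, h x = h y → x = y := by
    intro x hx y hy hxy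
    rcases lt_trichotomy (x / K) (y / K) with h1 | h1 | h1
    · have := hord x hx y hy h1
      omega
    · rw [hh x hx, hh y hy] at hxy
      have h2 : H ⟨x / K, hdiv x hx⟩ ⟨x % K, Nat.mod_lt _ hK0⟩ =
          H ⟨x / K, hdiv x hx⟩ ⟨y % K, Nat.mod_lt _ hK0⟩ := by
        have e : (⟨x / K, hdiv x hx⟩ : Fin T) = ⟨y / K, hdiv y hy⟩ := Fin.ext h1
        apply Subtype.ext
        rw [hxy, e]
      have h3 := hH2 _ h2
      rw [Fin.mk.injEq] at h3
      rw [← Nat.div_add_mod x K, ← Nat.div_add_mod y K, h1, h3]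
    · have := hord y hy x hx h1
      omega
  have hadm2 : ∀ p : ℕ, p.Prime → ∃ r : ℕ, ∀ x < T * K, ¬ p ∣ r + h x := by
    intro p hp
    by_cases hpK : p ≤ T * K
    · obtain ⟨r, hr⟩ := hH3 p hp hpK
      refine ⟨r, fun x hx => ?_⟩
      rw [hh x hx]
      exact hr _ _
    · exact large_prime hp (by omega) h
  obtain ⟨J, hJ1, hJ2, hJ3⟩ := hex q a hq haq h hinj hadm2
  obtain ⟨I, hI1, hI2, hI3, hI4⟩ := transversal hk hT hq h hord J hJ1 hJ2 hJ3
  -- the transversal of the box which contains the pattern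
  have hch : ∀ g : Fin T, ∃ i : Fin K, ∀ x ∈ I, x / K = g → x % K = i := by
    intro g
    by_cases hg : ∃ x ∈ I, x / K = g
    · obtain ⟨x, hx, hxg⟩ := hg
      refine ⟨⟨x % K, Nat.mod_lt _ hK0⟩, fun y hy hyg => ?_⟩
      rw [hI2 y hy x hx (hyg.trans hxg.symm)]
    · push Not at hg
      exact ⟨⟨0, hK0⟩, fun x hx hxg => absurd hxg (hg x hx)⟩
  choose c hc using hch
  have hu := hA2 (fun g => H g (c g)) (fun g => hH1 g (c g))
  rw [hE] at hu
  refine hu.2 (I.image h) ?_ ?_ hI4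
  · intro b hb
    rw [mem_image] at hb
    obtain ⟨x, hx, rfl⟩ := hb
    rw [mem_image]
    refine ⟨⟨x / K, hdiv x (hI1 x hx)⟩, mem_univ _, ?_⟩
    rw [hh x (hI1 x hx)]
    have h1 := hc ⟨x / K, hdiv x (hI1 x hx)⟩ x hx rfl
    have h2 : c ⟨x / K, hdiv x (hI1 x hx)⟩ = ⟨x % K, Nat.mod_lt _ hK0⟩ := Fin.ext h1.symm
    show (H ⟨x / K, hdiv x (hI1 x hx)⟩ (c ⟨x / K, hdiv x (hI1 x hx)⟩) : ℕ) = _
    rw [h2]
  · rw [card_image_of_injOn, hI3]
    intro x hx y hy hxy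
    exact hinj x (hI1 x hx) y (hI1 y hy) hxy

end Pool.Agent.U404.CP
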